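import Mathlib
import Pool.Agent.H9.RdvWalk
import Pool.Agent.H9.RdvDefs
import Pool.Agent.H9.RdvFinal

/-! MP_925b40_pr, Q1 and Q2: CO-HA-TO has expected meeting time `3/4` on both the directed circle
(`That2`, group `G₂`) and the undirected circle (`That3`, group `G₃`), and one and the same mixed
strategy `μ` has expected meeting time at most `189/256 < 3/4` on both; so CO-HA-TO is not an
optimal symmetric strategy in either case. -/

namespace Pool.Agent.Results.MP_925b40_pr.Disproof

open MeasureTheory Rdv

theorem result :
    IsProbabilityMeasure cohato ∧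
    mixedTime That2 cohato = 3 / 4 ∧
    mixedTime That3 cohato = 3 / 4 ∧
    (∃ μ : Measure PureStrat, IsProbabilityMeasure μ ∧
      mixedTime That2 μ ≤ 189 / 256 ∧ mixedTime That3 μ ≤ 189 / 256) ∧
    value That2 < mixedTime That2 cohato ∧
    value That3 < mixedTime That3 cohato :=
  main

end Pool.Agent.Results.MP_925b40_pr.Disproof
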